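import Mathlib
import Pool.Agent.N178.HX.StmF
import Pool.Agent.N141.GHC.Loc
import Pool.Agent.N830.HC.C1

/-!
# GHC3/LOCT: the traces of the conjugates of the complex structure, for families of CM types
(for helper178)
-/

set_option linter.unusedSectionVars false

namespace Pool.Agent.N319.GHC

open Matrix Module NumberField Pool.Agent.W437.HC Pool.Agent.W437.HD Pool.Agent.TH504.CB
open Pool.Agent.Y90
open Pool.Agent.W548.Odd hiding cv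
open Pool.Agent.H204R3.CM (IsHodge IsCMType)
open Pool.Agent.W437.HP (cK cK_mul cK_one)
open Pool.Agent.R915 Pool.Agent.N178.HW Pool.Agent.N178.HX
open Pool.Agent.W547.KB (CMPair CMAV single)
open Pool.Agent.N830.HC (av HasCMultIn cm_of_factor lc_of)
open Pool.Agent.N141.GHC (fac_hom)

noncomputable section

section sign

open Classical in
/-- The sign of an embedding. -/
def ep (P : CMPair) (φ : P.E →+* ℂ) : ℤ := if φ ∈ P.Φ then 1 else -1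

theorem sg_eq (P : CMPair) (σ : ℂ ≃+* ℂ) (φ : P.E →+* ℂ) :
    sg P σ φ = ep P ((σ : ℂ →+* ℂ).comp φ) := rfl

theorem ep_mem {P : CMPair} {φ : P.E →+* ℂ} (h : φ ∈ P.Φ) : ep P φ = 1 := if_pos h

theorem ep_not {P : CMPair} {φ : P.E →+* ℂ} (h : φ ∉ P.Φ) : ep P φ = -1 := if_neg h

theorem ep_pm (P : CMPair) (φ : P.E →+* ℂ) : ep P φ = 1 ∨ ep P φ = -1 := by
  by_cases h : φ ∈ P.Φ
  · exact Or.inl (ep_mem h)
  · exact Or.inr (ep_not h)

theorem sg_pm (P : CMPair) (σ : ℂ ≃+* ℂ) (φ : P.E →+* ℂ) : sg P σ φ = 1 ∨ sg P σ φ = -1 :=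
  ep_pm P _

theorem conj_mem {P : CMPair} {φ : P.E →+* ℂ} (h : φ ∉ P.Φ) :
    ComplexEmbedding.conjugate φ ∈ P.Φ := by
  by_contra h1
  exact h ((P.isCMType φ).2 h1)

theorem exists_ep (P : CMPair) {t : ℤ} (ht : t = 1 ∨ t = -1) : ∃ φ : P.E →+* ℂ, ep P φ = t := by
  obtain ⟨φ⟩ : Nonempty (P.E →+* ℂ) := inferInstance
  obtain ⟨ψ, hψ⟩ : ∃ ψ : P.E →+* ℂ, ψ ∈ P.Φ := by
    by_cases h : φ ∈ P.Φ
    · exact ⟨φ, h⟩
    · exact ⟨_, conj_mem h⟩
  rcases ht with rfl | rfl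
  · exact ⟨ψ, ep_mem hψ⟩
  · exact ⟨_, ep_not ((P.isCMType ψ).1 hψ)⟩

end sign

section lines

variable {a : ℕ} {Z : Matrix (Fin a) (Fin a) ℂ} (P : CMPair)
  (j : (Fin a ⊕ Fin a → ℚ) →ₗ[ℚ] (Unit → P.E))

/-- The complex linear extension of `φ ∘ j`. -/
def LF (φ : P.E →+* ℂ) : (Fin a ⊕ Fin a → ℂ) →ₗ[ℂ] ℂ :=
  ∑ k, φ (j (Pi.single k 1) ()) • LinearMap.proj k

theorem LF_apply (φ : P.E →+* ℂ) (x : Fin a ⊕ Fin a → ℂ) :
    LF P j φ x = ∑ k, φ (j (Pi.single k 1) ()) * x k := by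
  unfold LF
  rw [LinearMap.sum_apply]
  rfl

theorem LF_single (φ : P.E →+* ℂ) (k : Fin a ⊕ Fin a) :
    LF P j φ (Pi.single k 1) = φ (j (Pi.single k 1) ()) := by
  rw [LF_apply, Finset.sum_eq_single k]
  · rw [Pi.single_eq_same, mul_one]
  · intro l _ hl
    rw [Pi.single_eq_of_ne hl, mul_zero]
  · intro hk
    exact absurd (Finset.mem_univ k) hk

theorem LF_cj (φ : P.E →+* ℂ) (σ : ℂ ≃+* ℂ) (x : Fin a ⊕ Fin a → ℂ) :
    LF P j ((σ : ℂ →+* ℂ).comp φ) (fun k => σ (x k)) = σ (LF P j φ x) := by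
  rw [LF_apply, LF_apply, map_sum]
  refine Finset.sum_congr rfl fun k _ => ?_
  rw [map_mul]
  rfl

variable {P j}

theorem LF_pos {Ψ : (Fin a → ℂ) →ₗ[ℂ] (Unit → P.Φ → ℂ)}
    (hΨ : ∀ v, Ψ (perOne Z v) = (single P).per (j v)) {φ : P.E →+* ℂ} (hφ : φ ∈ P.Φ)
    (x : Fin a ⊕ Fin a → ℂ) : LF P j φ x = Ψ (perC Z x) () ⟨φ, hφ⟩ := by
  let e : (Unit → P.Φ → ℂ) →ₗ[ℂ] ℂ :=
    { toFun := fun u => u () ⟨φ, hφ⟩
      map_add' := fun _ _ => rfl
      map_smul' := fun _ _ => rfl }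
  have h1 : LF P j φ = e.comp (Ψ.comp (perC Z)) := by
    refine (Pi.basisFun ℂ (Fin a ⊕ Fin a)).ext fun k => ?_
    rw [Pi.basisFun_apply, LF_single]
    change _ = Ψ (perC Z (Pi.single k 1)) () ⟨φ, hφ⟩
    rw [← single_cv, perC_rat, hΨ]
    rfl
  exact congrArg (fun f => f x) h1

theorem LF_DZ (h : PM Z) {Ψ : (Fin a → ℂ) →ₗ[ℂ] (Unit → P.Φ → ℂ)}
    (hΨ : ∀ v, Ψ (perOne Z v) = (single P).per (j v)) (φ : P.E →+* ℂ) (x : Fin a ⊕ Fin a → ℂ) :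
    LF P j φ (DZ Z *ᵥ x) = (ep P φ : ℂ) * LF P j φ x := by
  by_cases hφ : φ ∈ P.Φ
  · rw [LF_pos hΨ hφ, LF_pos hΨ hφ, perC_DZ h, ep_mem hφ, Int.cast_one, one_mul]
  · have hψ := conj_mem hφ
    set ψ := ComplexEmbedding.conjugate φ with hψd
    have e1 : φ = (cc : ℂ →+* ℂ).comp ψ := by
      refine RingHom.ext fun u => ?_
      change φ u = cc (ψ u)
      rw [hψd, ComplexEmbedding.conjugate_coe_eq, cc_apply, Complex.conj_conj]
    let y : Fin a ⊕ Fin a → ℂ := fun k => cc (x k)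
    have e2 : x = fun k => cc (y k) := by
      funext k
      change x k = cc (cc (x k))
      rw [cc_apply, cc_apply, Complex.conj_conj]
    have e3 : DZ Z *ᵥ x = -(fun k => cc ((DZ Z *ᵥ y) k)) := by
      rw [map_mulVec_aut cc (DZ Z) y, Pool.Agent.Y90.DZ_conj, ← e2, neg_mulVec, neg_neg]
    rw [ep_not hφ, e3, map_neg]
    have e4 : LF P j φ (fun k => cc ((DZ Z *ᵥ y) k)) = cc (LF P j ψ (DZ Z *ᵥ y)) := by
      rw [← LF_cj, ← e1]
    have e5 : LF P j φ x = cc (LF P j ψ y) := by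
      rw [← LF_cj, ← e1, ← e2]
    rw [e4, e5, LF_pos hΨ hψ, LF_pos hΨ hψ, perC_DZ h]
    push_cast
    ring

theorem LF_DS (h : PM Z) {Ψ : (Fin a → ℂ) →ₗ[ℂ] (Unit → P.Φ → ℂ)}
    (hΨ : ∀ v, Ψ (perOne Z v) = (single P).per (j v)) (φ : P.E →+* ℂ) (σ : ℂ ≃+* ℂ)
    (x : Fin a ⊕ Fin a → ℂ) :
    LF P j φ (DS Z σ *ᵥ x) = (sg P σ.symm φ : ℂ) * LF P j φ x := by
  let y : Fin a ⊕ Fin a → ℂ := fun k => σ.symm (x k)
  let ψ : P.E →+* ℂ := (σ.symm : ℂ →+* ℂ).comp φ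
  have e1 : (σ : ℂ →+* ℂ).comp ψ = φ := by
    refine RingHom.ext fun u => ?_
    change σ (σ.symm (φ u)) = φ u
    rw [RingEquiv.apply_symm_apply]
  have e2 : (fun k => σ (y k)) = x := by
    funext k
    change σ (σ.symm (x k)) = x k
    rw [RingEquiv.apply_symm_apply]
  have e3 : DS Z σ *ᵥ x = fun k => σ ((DZ Z *ᵥ y) k) := by
    rw [map_mulVec_aut σ (DZ Z) y, e2]
    rfl
  have e4 : LF P j φ (fun k => σ ((DZ Z *ᵥ y) k)) = σ (LF P j ψ (DZ Z *ᵥ y)) := by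
    rw [← LF_cj, e1]
  have e5 : LF P j φ x = σ (LF P j ψ y) := by
    rw [← LF_cj, e1, e2]
  rw [e3, e4, e5, LF_DZ h hΨ, map_mul, map_intCast]
  rfl

theorem exists_LF_ne (hinj : Function.Injective j) {w : Fin a ⊕ Fin a → ℂ} (hw : w ≠ 0) :
    ∃ φ, LF P j φ w ≠ 0 := by
  classical
  by_contra hcon
  push Not at hcon
  apply hw
  obtain ⟨p, hp⟩ := LinearMap.exists_leftInverse_of_injective j (LinearMap.ker_eq_bot.2 hinj)
  funext l
  let c : P.E →ₗ[ℚ] (Unit → P.E) := LinearMap.pi fun _ => LinearMap.id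
  let f : P.E →ₗ[ℚ] ℚ := (LinearMap.proj l).comp (p.comp c)
  have hf : ∀ k, f (j (Pi.single k 1) ()) = (Pi.single k 1 : Fin a ⊕ Fin a → ℚ) l := by
    intro k
    have h1 : c (j (Pi.single k 1) ()) = j (Pi.single k 1) := by
      funext u
      rfl
    change p (c _) l = _
    rw [h1]
    exact congrFun (LinearMap.congr_fun hp _) l
  have hnd := traceForm_nondegenerate ℚ P.E
  let y := ((Algebra.traceForm ℚ P.E).toDual hnd).symm f
  have hy : ∀ x, Algebra.trace ℚ P.E (y * x) = f x := fun x =>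
    LinearMap.BilinForm.apply_toDual_symm_apply (B := Algebra.traceForm ℚ P.E) (hB := hnd) f x
  have h2 : ∑ σ : P.E →ₐ[ℚ] ℂ, σ y * LF P j (σ : P.E →+* ℂ) w = w l := by
    have h3 : ∀ σ : P.E →ₐ[ℚ] ℂ, σ y * LF P j (σ : P.E →+* ℂ) w =
        ∑ k, σ (y * j (Pi.single k 1) ()) * w k := by
      intro σ
      rw [LF_apply, Finset.mul_sum]
      refine Finset.sum_congr rfl fun k _ => ?_
      rw [map_mul, mul_assoc]
      rfl
    rw [Finset.sum_congr rfl fun σ _ => h3 σ, Finset.sum_comm]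
    have h4 : ∀ k, ∑ σ : P.E →ₐ[ℚ] ℂ, σ (y * j (Pi.single k 1) ()) * w k =
        (((Pi.single k 1 : Fin a ⊕ Fin a → ℚ) l : ℚ) : ℂ) * w k := by
      intro k
      rw [← Finset.sum_mul, ← trace_eq_sum_embeddings (K := ℚ) (L := P.E) ℂ, hy, hf]
      rfl
    rw [Finset.sum_congr rfl fun k _ => h4 k, Finset.sum_eq_single l]
    · rw [Pi.single_eq_same, Rat.cast_one, one_mul]
    · intro k _ hk
      rw [Pi.single_eq_of_ne hk.symm, Rat.cast_zero, zero_mul]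
    · intro hl
      exact absurd (Finset.mem_univ l) hl
  rw [← h2]
  exact Finset.sum_eq_zero fun σ _ => by rw [hcon, mul_zero]

end lines

section cx

variable {g a : ℕ} {Z : Matrix (Fin g) (Fin g) ℂ} {Z' : Matrix (Fin a) (Fin a) ℂ}
  {E : Matrix (Fin g ⊕ Fin g) (Fin a ⊕ Fin a) ℚ} {F : Matrix (Fin a ⊕ Fin a) (Fin g ⊕ Fin g) ℚ}
  {U : Submodule ℂ (Fin g ⊕ Fin g → ℂ)}

/-- The lines attached to factors with complex multiplication. -/
theorem cx_case (k : CX Z U a Z' E F) (hU : IrS (Pool.Agent.Y90.LZ Z) U) (P : CMPair)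
    (j : (AVZ k.pm).H →ₗ[ℚ] (av (single P)).H) (hj : IsHom (AVZ k.pm) (av (single P)) j)
    (hinj : Function.Injective j) : ∃ φ : P.E →+* ℂ, ∀ σ, tr Z (cjS σ U) = sg P σ φ := by
  obtain ⟨Ψ, hΨ⟩ := hj
  let j' : (Fin a ⊕ Fin a → ℚ) →ₗ[ℚ] (Unit → P.E) := j
  let Ψ' : (Fin a → ℂ) →ₗ[ℂ] (Unit → P.Φ → ℂ) := Ψ
  have hΨ' : ∀ v, Ψ' (perOne Z' v) = (single P).per (j' v) := hΨ
  have hne : ∃ u ∈ U, ml F u ≠ 0 := by
    obtain ⟨u, hu, hu0⟩ := Submodule.exists_mem_ne_zero_of_ne_bot hU.1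
    exact ⟨u, hu, fun h0 => hu0 (k.inj u hu h0)⟩
  have hW := k.fac.irr hU hne
  have hd : finrank ℂ (U.map (ml F)) = 1 := by rw [finrank_ml k.inj, k.dim]
  obtain ⟨μ, hμ1, hμ2⟩ := exists_mu k.pm hW hd
  obtain ⟨w, hw, hw0⟩ := Submodule.exists_mem_ne_zero_of_ne_bot hW.1
  obtain ⟨φ, hφ⟩ := exists_LF_ne (P := P) (j := j') hinj hw0
  refine ⟨φ, fun σ => ?_⟩
  obtain ⟨c, hc⟩ : ∃ c : ℂ, DS Z' σ.symm *ᵥ w = c • w := by
    have h1 := hW.2.1 _ (DS_mem (Z := Z') σ.symm) w hw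
    obtain ⟨c, hc⟩ := (finrank_eq_one_iff_of_nonzero' (⟨w, hw⟩ : U.map (ml F))
      (fun h0 => hw0 (congrArg Subtype.val h0))).1 hd ⟨_, h1⟩
    exact ⟨c, (congrArg Subtype.val hc).symm⟩
  have h1 := hμ2 σ.symm w
  rw [hc, map_smul, smul_eq_mul, RingEquiv.symm_symm] at h1
  have hμw : μ w ≠ 0 := fun h0 => hw0 (hμ1 w hw h0)
  have h2 := mul_right_cancel₀ hμw h1
  have h3 := LF_DS k.pm hΨ' φ σ.symm w
  rw [hc, map_smul, smul_eq_mul, RingEquiv.symm_symm] at h3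
  have h4 := mul_right_cancel₀ hφ h3
  rw [← k.tr_cj hU.2.1]
  exact_mod_cast h2.symm.trans h4

end cx

section ell

/-- Elliptic curves with complex multiplication which are factors of abelian varieties with the CM
type `P`. -/
theorem ell_sg {Y : AV} (hfin : finrank ℚ Y.H = 2) {δ : ℚ} (hU : Unbalanced Y δ) (P : CMPair)
    (j : Y.H →ₗ[ℚ] (av (single P)).H) (hj : IsHom Y (av (single P)) j)
    (hinj : Function.Injective j) (φ : P.E →+* ℂ) (σ : ℂ ≃+* ℂ) :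
    sg P σ φ = ep P φ * rho δ σ := by
  obtain ⟨hδ, h, Ψh, -, hΨh, hsq, -, -⟩ := hU
  obtain ⟨Θ, hΘ⟩ := hj
  let Θ' : Y.T →ₗ[ℂ] (Unit → P.Φ → ℂ) := Θ
  let j' : Y.H →ₗ[ℚ] (Unit → P.E) := j
  have hΘ' : ∀ v, Θ' (Y.per v) = (single P).per (j' v) := hΘ
  have hT : finrank ℂ Y.T = 1 := by
    have h1 := Y.rank
    omega
  -- a nonzero period
  obtain ⟨y, hy⟩ : ∃ y, Y.per y ≠ 0 := by
    by_contra hcon
    push Not at hcon
    have h1 : (⊤ : Submodule ℝ Y.T) = ⊥ := by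
      rw [← Y.span, eq_bot_iff, Submodule.span_le]
      rintro _ ⟨v, rfl⟩
      exact hcon v
    obtain ⟨t, ht⟩ := (finrank_pos_iff_exists_ne_zero (R := ℂ) (M := Y.T)).1 (by omega)
    have h2 : t ∈ (⊤ : Submodule ℝ Y.T) := trivial
    rw [h1] at h2
    exact ht h2
  obtain ⟨s, hs⟩ : ∃ s : ℂ, ∀ t, Ψh t = s • t := by
    obtain ⟨s, hs⟩ := (finrank_eq_one_iff_of_nonzero' (Y.per y) hy).1 hT (Ψh (Y.per y))
    refine ⟨s, fun t => ?_⟩
    obtain ⟨c, rfl⟩ := (finrank_eq_one_iff_of_nonzero' (Y.per y) hy).1 hT t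
    rw [map_smul, ← hs, smul_comm]
  have hss : s * s = -(δ : ℂ) := by
    have h1 : Ψh (Ψh (Y.per y)) = Y.per (h (h y)) := by rw [hΨh, hΨh]
    rw [hs, hs, smul_smul, hsq, map_neg, per_smul] at h1
    have h2 : (s * s + (δ : ℂ)) • Y.per y = 0 := by
      rw [add_smul, h1, neg_add_eq_zero]
      exact (Complex.coe_smul (δ : ℝ) (Y.per y)).symm
    have h3 := (smul_eq_zero.1 h2).resolve_right hy
    linear_combination h3
  have hs2 : s = Complex.I * rt δ ∨ s = -(Complex.I * rt δ) :=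
    mul_self_eq_mul_self_iff.1 (by rw [hss, Irt_sq hδ])
  have hs0 : s ≠ 0 := by
    rintro rfl
    rw [mul_zero, eq_comm, neg_eq_zero] at hss
    exact hδ.ne' (by exact_mod_cast hss)
  have hsσ : ∀ τ : ℂ ≃+* ℂ, τ s = (rho δ τ : ℂ) * s := by
    intro τ
    rcases hs2 with h1 | h1
    · rw [h1, rho_spec hδ]
    · rw [h1, map_neg, rho_spec hδ]
      ring
  have hsc : (starRingEnd ℂ) s = -s := by
    rcases hs2 with h1 | h1
    · rw [h1, map_mul, Complex.conj_I, Complex.conj_ofReal]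
      ring
    · rw [h1, map_neg, map_mul, Complex.conj_I, Complex.conj_ofReal]
      ring
  have hpos : ∀ ψ : P.E →+* ℂ, ψ ∈ P.Φ → ∀ v, ψ (j' (h v) ()) = s * ψ (j' v ()) := by
    intro ψ hψ v
    have h1 : Θ' (Y.per (h v)) = s • Θ' (Y.per v) := by rw [← hΨh, hs, map_smul]
    rw [hΘ', hΘ'] at h1
    exact congrFun (congrFun h1 ()) ⟨ψ, hψ⟩
  have hall : ∀ ψ : P.E →+* ℂ, ∀ v, ψ (j' (h v) ()) = (ep P ψ : ℂ) * s * ψ (j' v ()) := by
    intro ψ v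
    by_cases hψ : ψ ∈ P.Φ
    · rw [hpos ψ hψ, ep_mem hψ, Int.cast_one, one_mul]
    · have h1 := hpos _ (conj_mem hψ) v
      rw [ComplexEmbedding.conjugate_coe_eq, ComplexEmbedding.conjugate_coe_eq] at h1
      have h2 := congrArg (starRingEnd ℂ) h1
      rw [map_mul, Complex.conj_conj, Complex.conj_conj, hsc] at h2
      rw [h2, ep_not hψ]
      push_cast
      ring
  have hjy : j' y () ≠ 0 := by
    intro h0
    apply hy
    have h1 : j' y = 0 := by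
      funext u
      exact h0
    have h2 : y = 0 := hinj (h1.trans (map_zero j').symm)
    rw [h2, map_zero]
  have hm : φ (j' y ()) ≠ 0 := fun h0 => hjy ((map_eq_zero φ).1 h0)
  have h1 := congrArg σ (hall φ y)
  rw [map_mul, map_mul, map_intCast, hsσ] at h1
  have h2 := hall ((σ : ℂ →+* ℂ).comp φ) y
  have h3 : ∀ u, ((σ : ℂ →+* ℂ).comp φ) u = σ (φ u) := fun u => rfl
  rw [h3, h3, h1] at h2
  have hm' : σ (φ (j' y ())) ≠ 0 := fun h0 => hm ((map_eq_zero σ).1 h0)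
  have h4 := mul_right_cancel₀ hm' h2
  have h5 : (((ep P φ * rho δ σ : ℤ) : ℂ)) * s = ((ep P ((σ : ℂ →+* ℂ).comp φ) : ℤ) : ℂ) * s := by
    rw [← h4]
    push_cast
    ring
  have h6 := mul_right_cancel₀ hs0 h5
  rw [sg_eq]
  exact_mod_cast h6.symm

end ell

section main

variable {K : Type} (T : K → CMPair) {g a : ℕ} {Z : Matrix (Fin g) (Fin g) ℂ}
  {Z' : Matrix (Fin a) (Fin a) ℂ}
  {E : Matrix (Fin g ⊕ Fin g) (Fin a ⊕ Fin a) ℚ} {F : Matrix (Fin a ⊕ Fin a) (Fin g ⊕ Fin g) ℚ}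
  {U : Submodule ℂ (Fin g ⊕ Fin g → ℂ)} {φ : Matrix (Fin a ⊕ Fin a) (Fin a ⊕ Fin a) ℚ} {α : ℂ}
  {δ : ℚ}

theorem lcfT (h : PM Z) (hT : ClsT T (AVZ h)) : LCF' Z := by
  intro a Z' E F hf h' hsim ha
  obtain ⟨i, hi, hinj⟩ := fac_hom hf h h'
  have hs := simple_of a h' hsim ha
  rcases hT (AVZ h') ⟨hs, i, hi, hinj⟩ with ⟨k, hk⟩ | ⟨hcm, hc, -⟩
  · obtain ⟨k', hk'⟩ := cm_of_factor _ _ hk
    exact Or.inr hk'.cm
  · exact Or.inl ⟨hcm, lc_of h' hs ha hcm hc⟩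

theorem DS_refl : DS Z (RingEquiv.refl ℂ) = DZ Z := by
  ext i j
  rfl

theorem cjS_refl (U : Submodule ℂ (Fin g ⊕ Fin g → ℂ)) : cjS (RingEquiv.refl ℂ) U = U := by
  ext v
  rw [mem_cjS]
  rfl

/-- Not all eigenvalues are equal. -/
theorem tr_lt (h : PM Z) (hL : LCF' Z) (hU : IrS (Pool.Agent.Y90.LZ Z) U)
    (h2 : 2 ≤ finrank ℂ U) : (tr Z U).natAbs ≠ finrank ℂ U := by
  intro h3
  have hpq := pd_add_qd h hU.2.1
  obtain ⟨-, hsc⟩ := (loc2 h hL hU).1 h2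
  have h4 : pd Z U = finrank ℂ U ∨ qd Z U = finrank ℂ U := by
    unfold tr at h3
    omega
  rcases h4 with h4 | h4
  · have h5 : U ⊓ eig Z 1 = U := Submodule.eq_of_le_of_finrank_eq inf_le_left h4
    obtain ⟨u, hu, hne⟩ := hsc (RingEquiv.refl ℂ) 1
    rw [← h5] at hu
    refine hne ?_
    rw [DS_refl]
    exact hu.2
  · have h5 : U ⊓ eig Z (-1) = U := Submodule.eq_of_le_of_finrank_eq inf_le_left h4
    obtain ⟨u, hu, hne⟩ := hsc (RingEquiv.refl ℂ) (-1)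
    rw [← h5] at hu
    refine hne ?_
    rw [DS_refl]
    exact hu.2

/-- The submodules attached to imaginary quadratic fields. -/
theorem kx_case (h : PM Z) (hT : ClsT T (AVZ h)) (hU : IrS (Pool.Agent.Y90.LZ Z) U)
    (k : KX Z U a Z' E F φ α δ) (hs : IsSimpleAV Z') (ha : 0 < a)
    (hcm : ∀ h₂ : PM Z', ¬ HasCMult (AVZ h₂)) :
    (∀ σ : ℂ ≃+* ℂ, tr Z (cjS σ U) = 0) ∨
      ∃ k φ, ∀ σ : ℂ ≃+* ℂ, tr Z (cjS σ U) = sg (T k) σ φ := by
  have h0 : tr Z' (U.map (ml F)) = tr Z U := k.fac.tr_map k.inj hU.2.1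
  by_cases ht : tr Z U = 0
  · left
    intro σ
    rw [k.tr_rho hU.2.1, h0, ht, zero_mul]
  right
  have hub := k.kw.unbalanced k.pm (by rw [h0]; exact ht)
  obtain ⟨i, hi, hinj⟩ := fac_hom k.fac h k.pm
  rcases hT (AVZ k.pm) ⟨simple_of a k.pm hs ha, i, hi, hinj⟩ with ⟨k', hk'⟩ | ⟨-, -, hd⟩
  · exfalso
    obtain ⟨k₂, hk₂⟩ := cm_of_factor _ _ hk'
    exact hcm k.pm hk₂.cm
  obtain ⟨h8, k', E', ⟨-, j, hj, hjinj⟩, hE2, hE3⟩ := hd δ hub
  rw [finrank_AVZ] at h8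
  have hdim : finrank ℂ U = a := by rw [← finrank_ml k.inj, k.kw.dim]
  have hpq := pd_add_qd h hU.2.1
  have hsm := k.small
  rw [h0] at hsm
  have hlt := tr_lt h (lcfT T h hT) hU
  have ht1 : tr Z U = 1 ∨ tr Z U = -1 := by
    rw [hdim] at hpq hlt
    have h5 : (tr Z U).natAbs ≤ a := by
      unfold tr
      omega
    have h6 : (tr Z U).natAbs ≠ 0 := by
      rw [Int.natAbs_ne_zero]
      exact ht
    have h7 : (tr Z U).natAbs = 1 := by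
      by_cases h2 : 2 ≤ a
      · have h9 := hlt h2
        omega
      · omega
    omega
  obtain ⟨φ', hφ'⟩ := exists_ep (T k') ht1
  refine ⟨k', φ', fun σ => ?_⟩
  rw [k.tr_rho hU.2.1, h0, ell_sg hE2 hE3 (T k') j hj hjinj, hφ']

end main

theorem t_LOCT : S_LOCT := by
  intro K T g Z h hT
  have hL := lcfT T h hT
  have hsd : ∀ U, IrS (Pool.Agent.Y90.LZ Z) U → SDu Z U → tr Z U = 0 := by
    rintro U hU ⟨b, h0, hb⟩
    have := tr_dual h hU hU h0 hb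
    omega
  have key : ∀ U, IrS (Pool.Agent.Y90.LZ Z) U → SDu Z U ∨ ((∀ σ : ℂ ≃+* ℂ, tr Z (cjS σ U) = 0) ∨
      ∃ k φ, ∀ σ : ℂ ≃+* ℂ, tr Z (cjS σ U) = sg (T k) σ φ) := by
    intro U hU
    rcases (loc2 h hL hU).2 with ⟨h1, -⟩ | ⟨a, Z', E, F, φ, α, δ, k, hs, ha, hcm⟩ | ⟨a, Z', E, F, k⟩
    · exact Or.inl h1
    · exact Or.inr (kx_case T h hT hU k hs ha hcm)
    · right
      right
      obtain ⟨i, hi, hinj⟩ := fac_hom k.fac h k.pm
      rcases hT (AVZ k.pm) ⟨simple_of a k.pm k.simple k.pos, i, hi, hinj⟩ with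
        ⟨k', -, j, hj, hjinj⟩ | ⟨hn, -⟩
      · obtain ⟨φ, hφ⟩ := cx_case k hU (T k') j hj hjinj
        exact ⟨k', φ, hφ⟩
      · exact absurd k.cm hn
  have main : ∀ U, IrS (Pool.Agent.Y90.LZ Z) U → (∀ σ : ℂ ≃+* ℂ, tr Z (cjS σ U) = 0) ∨
      ∃ k φ, ∀ σ : ℂ ≃+* ℂ, tr Z (cjS σ U) = sg (T k) σ φ := by
    intro U hU
    rcases key U hU with h1 | h1
    · left
      intro σ
      have hU' := hU.cj gal_LZ σ
      rcases key _ hU' with h2 | h2 | ⟨k, φ, h2⟩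
      · exact hsd _ hU' h2
      · have h3 := h2 (RingEquiv.refl ℂ)
        rwa [cjS_refl] at h3
      · exfalso
        have h3 := h2 σ.symm
        rw [cjS_symm, hsd U hU h1] at h3
        rcases sg_pm (T k) σ.symm φ with h4 | h4 <;> rw [h4] at h3 <;> norm_num at h3
    · exact h1
  refine ⟨hL, fun U hU => ?_, main⟩
  rcases main U hU with h1 | ⟨k, φ, h1⟩
  · have h2 := h1 (RingEquiv.refl ℂ)
    rw [cjS_refl] at h2
    exact Or.inr (Or.inl h2)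
  · have h2 := h1 (RingEquiv.refl ℂ)
    rw [cjS_refl] at h2
    rw [h2]
    rcases sg_pm (T k) (RingEquiv.refl ℂ) φ with h4 | h4
    · exact Or.inr (Or.inr h4)
    · exact Or.inl h4

end

end Pool.Agent.N319.GHC
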